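import Mathlib
import Pool.Agent.V8H12.GT.Val
import Pool.Agent.V8H12.X49.Rank

/-!
# Rank and 2-Selmer rank of the quadratic twists of a curve with a point of order two

`E : y² = x³ + a x² + b x` is arbitrary, `b (a² - 4 b) ≠ 0`, and `E_D : y² = x³ + a D x² + b D² x` is its
quadratic twist. The definitions `SelSet`, `f`, `rank`, `s`, `Q1` are those of the problem.

The class of the `D`: squarefree `D ≥ 1`, `D ≡ 1 mod 8`, `D` is a square modulo all odd primes dividing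
`b (a² - 4 b)`, and every prime factor of `D` is split (`≡ 1 mod 8`, a square modulo all these primes,
prime to `b (a² - 4 b)`) or inert (odd, `b` and `a² - 4 b` are both non-squares modulo it).

* Both 2-isogeny Selmer groups of `E_D` are computed for every `D` of the class: they are the products of the
  Selmer groups of `E` with one and the same group, the kernel of the matrix `mat a b D` over `𝔽₂`, indexed
  by the split prime factors of `D`. So `f₁`, `f₂` both increase by `corank (mat a b D)` and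
  `s(E_D) = s(E) + 2 corank (mat a b D)`.
* If `b` and `a² - 4 b` are not squares, `s(E) = 0` and the matrix is invertible, then `E_D` has rank zero and
  Q1 holds for `E_D`.
* If `b` and `a² - 4 b` are not squares, every `D` of the class divides infinitely many
  `D' = D q₁ q₂` of the class with `s(E_{D'}) = s(E)`, with inert primes `q₁`, `q₂`; and `s(E) + 2 n` is the
  2-Selmer rank of infinitely many twists in the class, for every `n ≥ 0`. There is also an explicit family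
  with `s(E_D) = s(E)`: all products of an even number of primes of a residue class.
* For split primes: if `y⁴ + a y² + b` has no root modulo the split prime `ℓ₀`, then `s(E_{ℓ₀ ℓ}) = s(E)` for
  every split prime `ℓ` which is not a square modulo `ℓ₀`, and there are infinitely many of these.

Proof. At the places dividing `2 b (a² - 4 b) ∞`, `D` and the numbers `∏ T` are squares, so the conditions
are those of `E`; at the prime factors of `D` they are the rows of the matrix; at the other primes the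
quartics are soluble by Hensel's lemma and a count of points. For the rank: an elementary descent (a point
with halves of all orders) and the finiteness theorem in `Pool.Agent.Y687.Desc3`.
-/

set_option autoImplicit false

open WeierstrassCurve

namespace Pool.Agent.Results.MP_e2b281_nt.GeneralTwists

/-- The rank of the curve `y² = x³ + a x² + b x` over `ℚ`. -/
noncomputable def rank (a b : ℤ) : ℕ := Module.finrank ℤ
  (({ a₁ := 0, a₂ := (a : ℚ), a₃ := 0, a₄ := (b : ℚ), a₆ := 0 } : WeierstrassCurve ℚ).toAffine.Point)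

/-- The squarefree divisors `b₁` of `b` (one for every class) with an everywhere locally solvable quartic
`N² = b₁ M⁴ + a M² e² + (b / b₁) e⁴`. -/
def SelSet (a b : ℤ) : Set ℤ := {b₁ : ℤ | Squarefree b₁ ∧ b₁ ∣ b ∧
  (∃ N M e : ℝ, (M ≠ 0 ∨ e ≠ 0) ∧
    N ^ 2 = (b₁ : ℝ) * M ^ 4 + (a : ℝ) * M ^ 2 * e ^ 2 + ((b / b₁ : ℤ) : ℝ) * e ^ 4) ∧
  ∀ (p : ℕ) [Fact p.Prime], ∃ N M e : Padic p, (M ≠ 0 ∨ e ≠ 0) ∧
    N ^ 2 = (b₁ : Padic p) * M ^ 4 + (a : Padic p) * M ^ 2 * e ^ 2 + ((b / b₁ : ℤ) : Padic p) * e ^ 4}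

/-- The exponent: the order of the group is `2 ^ (f a b)`. -/
noncomputable def f (a b : ℤ) : ℕ := Nat.log 2 (SelSet a b).ncard

/-- The 2-Selmer rank `f₁ + f₂ - 2` of `y² = x³ + a x² + b x`. -/
noncomputable def s (a b : ℤ) : ℤ := (f a b : ℤ) + (f (-2 * a) (a ^ 2 - 4 * b) : ℤ) - 2

/-- The assertion of Q1 for the curve `y² = x³ + a x² + b x`. -/
def Q1 (a b : ℤ) : Prop := (rank a b : ℤ) ≡ s a b [ZMOD 2]

/-- the odd primes that divide `b (a² - 4 b)` -/
def Bad (a b : ℤ) (p : ℕ) : Prop := p.Prime ∧ p ≠ 2 ∧ (p : ℤ) ∣ b * (a ^ 2 - 4 * b)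

/-- The split primes: `≡ 1 mod 8`, not dividing `b (a² - 4 b)`, and squares modulo all odd primes that
divide `b (a² - 4 b)`. -/
def IsSplit (a b : ℤ) (l : ℕ) : Prop :=
  l.Prime ∧ l % 8 = 1 ∧ ¬ (l : ℤ) ∣ b * (a ^ 2 - 4 * b) ∧ ∀ p : ℕ, Bad a b p → IsSquare (l : ZMod p)

/-- The inert primes: odd, and neither `b` nor `a² - 4 b` is a square modulo them. -/
def IsInert (a b : ℤ) (l : ℕ) : Prop :=
  l.Prime ∧ l ≠ 2 ∧ ¬ IsSquare (b : ZMod l) ∧ ¬ IsSquare ((a ^ 2 - 4 * b : ℤ) : ZMod l)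

/-- The class: `D` is squarefree, `≡ 1 mod 8`, a square modulo all odd primes that divide
`b (a² - 4 b)`, and all its prime factors are split or inert. -/
def Class (a b : ℤ) (D : ℕ) : Prop :=
  Squarefree D ∧ D % 8 = 1 ∧ (∀ p : ℕ, Bad a b p → IsSquare (D : ZMod p)) ∧
    ∀ l ∈ D.primeFactors, IsSplit a b l ∨ IsInert a b l

open scoped Classical in
/-- the split prime factors of `D` -/
noncomputable def splitSet (a b : ℤ) (D : ℕ) : Finset ℕ := D.primeFactors.filter (IsSplit a b)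

open scoped Classical in
/-- `1` if `m` is not a square modulo `p`, and `0` if it is -/
noncomputable def nonsq (p m : ℕ) : ZMod 2 := if IsSquare (m : ZMod p) then 0 else 1

open scoped Classical in
/-- `1` if `y⁴ + a y² + b` has no root modulo `l`, and `0` if it has one -/
noncomputable def rootless (a b : ℤ) (l : ℕ) : ZMod 2 :=
  if ∃ y : ZMod l, y ^ 4 + a * y ^ 2 + b = 0 then 0 else 1

open scoped Classical in
/-- The matrix over the field with two elements, with rows and columns indexed by the split prime factors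
of `D`: the entry at `(i, j)` is `nonsq i j` for `i ≠ j`, and the entry at `(i, i)` is the sum of
`rootless a b i` and of the `nonsq i l` for all the prime factors `l ≠ i` of `D`. -/
noncomputable def mat (a b : ℤ) (D : ℕ) : Matrix (splitSet a b D) (splitSet a b D) (ZMod 2) :=
  Matrix.of fun i j =>
    if i = j then rootless a b i + ∑ l ∈ D.primeFactors.erase i, nonsq i l else nonsq i j

/-- the corank of the matrix -/
noncomputable def corank (a b : ℤ) (D : ℕ) : ℕ := (splitSet a b D).card - (mat a b D).rank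

/-- `T` is a set of split prime factors of `D` and its indicator vector is in the kernel of the matrix. -/
def Kernel (a b : ℤ) (D : ℕ) (T : Finset ℕ) : Prop :=
  T ⊆ splitSet a b D ∧ (mat a b D).mulVec (fun i => if (i : ℕ) ∈ T then 1 else 0) = 0

/-- the products of the elements of a set `G` with the products of the sets of primes in the kernel -/
def Prd (G : Set ℤ) (a b : ℤ) (D : ℕ) : Set ℤ :=
  {x | ∃ (u : ℤ) (T : Finset ℕ), u ∈ G ∧ Kernel a b D T ∧ x = u * ∏ q ∈ T, (q : ℤ)}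

/-- `E_D : y² = x³ + a D x² + b D² x` has `s = 0` and rank `0`, and Q1 holds for it. -/
def Settled (a b : ℤ) (D : ℕ) : Prop :=
  s (a * D) (b * D ^ 2) = 0 ∧ rank (a * D) (b * D ^ 2) = 0 ∧ Q1 (a * D) (b * D ^ 2)

section proof

open Pool.Agent.V8H12

theorem sel_eq (a b : ℤ) : SelSet a b = X49.SelSet a b := rfl

theorem class_eq (a b : ℤ) (D : ℕ) : Class a b D ↔ GT.Class a b D := Iff.rfl

theorem splitSet_eq (a b : ℤ) (D : ℕ) : splitSet a b D = GT.splitSet a b D := rfl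

theorem corank_eq (a b : ℤ) (D : ℕ) : corank a b D = GT.cork a b D := rfl

theorem kernel_iff (a b : ℤ) (D : ℕ) (T : Finset ℕ) : Kernel a b D T ↔
    GT.Ker (GT.splitSet a b D) (D.primeFactors \ GT.splitSet a b D) (GT.rootless a b) T := by
  unfold GT.Ker
  rw [GT.union_eq]
  exact Iff.rfl

theorem dual_a (a : ℤ) (D : ℕ) : -2 * (a * D) = -2 * a * D := by ring

theorem dual_b (a b : ℤ) (D : ℕ) :
    (a * D) ^ 2 - 4 * (b * D ^ 2) = (a ^ 2 - 4 * b) * (D : ℤ) ^ 2 := by ring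

theorem set_of {a b x y : ℤ} {D : ℕ} (hD : Squarefree D)
    (h : GT.Dat x y (GT.splitSet a b D) (D.primeFactors \ GT.splitSet a b D) (GT.rootless a b)) :
    SelSet (x * D) (y * D ^ 2) = Prd (SelSet x y) a b D := by
  have hPP : GT.PP (GT.splitSet a b D ∪ (D.primeFactors \ GT.splitSet a b D)) = D := by
    rw [GT.union_eq, GT.pp_eq hD]
  ext z
  constructor
  · intro hz
    obtain ⟨u, T, h1, h2, h3⟩ := h.upper (x := z) (by rw [hPP]; exact hz)
    exact ⟨u, T, h1, (kernel_iff a b D T).2 h2, h3⟩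
  · rintro ⟨u, T, h1, h2, rfl⟩
    have h3 := h.lower (u := u) h1 ((kernel_iff a b D T).1 h2)
    rw [hPP] at h3
    exact h3

theorem f_of {a b x y : ℤ} {D : ℕ} (hD : Squarefree D)
    (h : GT.Dat x y (GT.splitSet a b D) (D.primeFactors \ GT.splitSet a b D) (GT.rootless a b)) :
    f (x * D) (y * D ^ 2) = f x y + corank a b D := by
  have hPP : GT.PP (GT.splitSet a b D ∪ (D.primeFactors \ GT.splitSet a b D)) = D := by
    rw [GT.union_eq, GT.pp_eq hD]
  have h1 := h.flog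
  rw [hPP, ← GT.cork_eq] at h1
  exact h1

theorem core {a b : ℤ} {D : ℕ} (hb : b ≠ 0) (hΔ : a ^ 2 - 4 * b ≠ 0) (hD : Class a b D) :
    SelSet (a * D) (b * D ^ 2) = Prd (SelSet a b) a b D ∧
    SelSet (-2 * (a * D)) ((a * D) ^ 2 - 4 * (b * D ^ 2)) =
      Prd (SelSet (-2 * a) (a ^ 2 - 4 * b)) a b D ∧
    f (a * D) (b * D ^ 2) = f a b + corank a b D ∧
    f (-2 * (a * D)) ((a * D) ^ 2 - 4 * (b * D ^ 2)) = f (-2 * a) (a ^ 2 - 4 * b) + corank a b D ∧
    s (a * D) (b * D ^ 2) = s a b + 2 * corank a b D := by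
  have h1 := GT.Class.dat hb hΔ ((class_eq a b D).1 hD)
  have h2 := h1.dual
  have e1 := set_of hD.1 h1
  have e2 := set_of hD.1 h2
  have e3 := f_of hD.1 h1
  have e4 := f_of hD.1 h2
  rw [← dual_a, ← dual_b] at e2 e4
  refine ⟨e1, e2, e3, e4, ?_⟩
  unfold s
  rw [e3, e4]
  push_cast
  ring

theorem f_pos {a b : ℤ} (hb : b ≠ 0) (hns : ¬ IsSquare b) : 1 ≤ f a b := by
  have h1 : Even (SelSet a b).ncard := GT.even_ncard (A := a) hb hns
  have h2 : 0 < (SelSet a b).ncard :=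
    (Set.ncard_pos (GT.sel_finite (a := a) hb)).2 ⟨1, GT.one_mem a b⟩
  obtain ⟨r, hr⟩ := h1
  have h3 : 2 ≤ (SelSet a b).ncard := by omega
  unfold f
  exact Nat.log_pos Nat.one_lt_two h3

theorem nonsq_mul {b : ℤ} (hns : ¬ IsSquare b) {D : ℕ} (hD : D ≠ 0) :
    ¬ IsSquare (b * (D : ℤ) ^ 2) := by
  have hD' : (D : ℤ) ≠ 0 := by exact_mod_cast hD
  rintro ⟨z, hz⟩
  have h2 : (D : ℤ) ^ 2 ∣ z ^ 2 := ⟨b, by linarith [hz]⟩
  obtain ⟨w, rfl⟩ := (Int.pow_dvd_pow_iff two_ne_zero).1 h2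
  refine hns ⟨w, ?_⟩
  have h4 : (D : ℤ) ^ 2 * (b - w * w) = 0 := by linear_combination hz
  rcases mul_eq_zero.1 h4 with h5 | h5
  · exact absurd h5 (pow_ne_zero 2 hD')
  · linarith

theorem ne_of_ns {b : ℤ} (h : ¬ IsSquare b) : b ≠ 0 := by
  rintro rfl
  exact h ⟨0, by simp⟩

theorem rank_zero_of {a b : ℤ} (h : Finite (X49.WT (a : ℚ) (b : ℚ)).toAffine.Point) :
    rank a b = 0 := by
  unfold rank
  have h' : Finite (({ a₁ := 0, a₂ := (a : ℚ), a₃ := 0, a₄ := (b : ℚ), a₆ := 0 } :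
    WeierstrassCurve ℚ).toAffine.Point) := h
  exact X49.rank_zero_of_finite

theorem settled {a b : ℤ} (hb : ¬ IsSquare b) (hΔ : ¬ IsSquare (a ^ 2 - 4 * b)) (hs : s a b = 0)
    {D : ℕ} (hD : Class a b D) (hc : corank a b D = 0) : Settled a b D := by
  have hb0 := ne_of_ns hb
  have hΔ0 := ne_of_ns hΔ
  obtain ⟨-, -, e3, e4, e5⟩ := core hb0 hΔ0 hD
  rw [hc] at e3 e4 e5
  have hD0 : D ≠ 0 := hD.1.ne_zero
  have g1 := f_pos (a := a) hb0 hb
  have g2 := f_pos (a := -2 * a) hΔ0 hΔ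
  have hs' : (f a b : ℤ) + (f (-2 * a) (a ^ 2 - 4 * b) : ℤ) - 2 = 0 := hs
  have k1 : f (a * D) (b * D ^ 2) ≤ 1 := by omega
  have k2 : f (-2 * (a * D)) ((a * D) ^ 2 - 4 * (b * D ^ 2)) ≤ 1 := by omega
  have n1 := nonsq_mul hb hD0
  have n2 : ¬ IsSquare ((a * (D : ℤ)) ^ 2 - 4 * (b * (D : ℤ) ^ 2)) := by
    rw [dual_b]
    exact nonsq_mul hΔ hD0
  have hfin : Finite (X49.WT ((a * D : ℤ) : ℚ) ((b * D ^ 2 : ℤ) : ℚ)).toAffine.Point :=
    GT.rank_zero (ne_of_ns n1) (ne_of_ns n2) n1 n2 k1 k2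
  have hr : rank (a * D) (b * D ^ 2) = 0 := rank_zero_of hfin
  have hs2 : s (a * D) (b * D ^ 2) = 0 := by
    rw [e5, hs]
    rfl
  refine ⟨hs2, hr, ?_⟩
  unfold Q1
  rw [hs2, hr]
  rfl

theorem s_of {a b : ℤ} {D : ℕ} (hb : b ≠ 0) (hΔ : a ^ 2 - 4 * b ≠ 0) (hD : Class a b D) {n : ℕ}
    (hc : corank a b D = n) : s (a * D) (b * D ^ 2) = s a b + 2 * n := by
  rw [(core hb hΔ hD).2.2.2.2, hc]

end proof

/-- **Rank and 2-Selmer rank of the quadratic twists of a curve with a point of order two.** -/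
theorem result :
    (∀ (a b : ℤ) (D : ℕ), b ≠ 0 → a ^ 2 - 4 * b ≠ 0 → Class a b D →
      SelSet (a * D) (b * D ^ 2) = Prd (SelSet a b) a b D ∧
      SelSet (-2 * (a * D)) ((a * D) ^ 2 - 4 * (b * D ^ 2)) =
        Prd (SelSet (-2 * a) (a ^ 2 - 4 * b)) a b D ∧
      f (a * D) (b * D ^ 2) = f a b + corank a b D ∧
      f (-2 * (a * D)) ((a * D) ^ 2 - 4 * (b * D ^ 2)) = f (-2 * a) (a ^ 2 - 4 * b) + corank a b D ∧
      s (a * D) (b * D ^ 2) = s a b + 2 * corank a b D) ∧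
    (∀ a b : ℤ, ¬ IsSquare b → ¬ IsSquare (a ^ 2 - 4 * b) →
      (s a b = 0 → ∀ D : ℕ, Class a b D → corank a b D = 0 → Settled a b D) ∧
      (∀ D : ℕ, Class a b D → ∀ N : ℕ, ∃ q₁ q₂ : ℕ, N < q₁ ∧ q₁ < q₂ ∧ IsInert a b q₁ ∧
        IsInert a b q₂ ∧ Class a b (D * q₁ * q₂) ∧ corank a b (D * q₁ * q₂) = 0 ∧
        s (a * (D * q₁ * q₂ : ℕ)) (b * (D * q₁ * q₂ : ℕ) ^ 2) = s a b ∧
        (s a b = 0 → Settled a b (D * q₁ * q₂))) ∧
      (∀ n N : ℕ, ∃ D : ℕ, N < D ∧ Class a b D ∧ corank a b D = n ∧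
        s (a * D) (b * D ^ 2) = s a b + 2 * n) ∧
      ∃ m : ℕ, Nat.Coprime m (8 * (b * (a ^ 2 - 4 * b)).natAbs) ∧
        ∀ D : ℕ, Squarefree D → Even D.primeFactors.card →
          (∀ q ∈ D.primeFactors, q ≡ m [MOD 8 * (b * (a ^ 2 - 4 * b)).natAbs]) →
          Class a b D ∧ corank a b D = 0 ∧ s (a * D) (b * D ^ 2) = s a b ∧
          (s a b = 0 → Settled a b D)) ∧
    (∀ (a b : ℤ) (l₀ : ℕ), b ≠ 0 → a ^ 2 - 4 * b ≠ 0 → IsSplit a b l₀ → rootless a b l₀ = 1 →
      (∀ l : ℕ, IsSplit a b l → ¬ IsSquare (l : ZMod l₀) → Class a b (l₀ * l) ∧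
        corank a b (l₀ * l) = 0 ∧ s (a * (l₀ * l : ℕ)) (b * (l₀ * l : ℕ) ^ 2) = s a b) ∧
      ∀ N : ℕ, ∃ l : ℕ, N < l ∧ IsSplit a b l ∧ ¬ IsSquare (l : ZMod l₀)) := by
  refine ⟨fun a b D hb hΔ hD => core hb hΔ hD, fun a b hb hΔ => ?_, fun a b l₀ hb hΔ h0 hr => ?_⟩
  · have hb0 := ne_of_ns hb
    have hΔ0 := ne_of_ns hΔ
    obtain ⟨m, hm, hc⟩ := Pool.Agent.V8H12.GT.inert_class hb hΔ
    refine ⟨fun hs D hD hc => settled hb hΔ hs hD hc, ?_, ?_, m, hm, ?_⟩
    · intro D hD N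
      obtain ⟨q₁, q₂, h1, h2, h3, h4, h5, h6⟩ :=
        Pool.Agent.V8H12.GT.exists_zero hb0 hΔ0 hm hc hD N
      have h7 := s_of hb0 hΔ0 h5 (n := 0) h6
      rw [Nat.cast_zero, mul_zero, add_zero] at h7
      exact ⟨q₁, q₂, h1, h2, h3, h4, h5, h6, h7, fun hs => settled hb hΔ hs h5 h6⟩
    · intro n N
      obtain ⟨D, h1, h2, h3⟩ := Pool.Agent.V8H12.GT.exists_cork hb0 hΔ0 hm hc n N
      exact ⟨D, h1, h2, h3, s_of hb0 hΔ0 h2 h3⟩
    · intro D hD he hq
      obtain ⟨h1, h2⟩ := Pool.Agent.V8H12.GT.inert_prod hb0 hm hc hD he hq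
      have h3 : corank a b D = 0 := by
        rw [corank_eq, Pool.Agent.V8H12.GT.cork_eq, h2, Pool.Agent.V8H12.GT.gcork_empty]
      have h4 := s_of hb0 hΔ0 h1 (n := 0) h3
      rw [Nat.cast_zero, mul_zero, add_zero] at h4
      exact ⟨h1, h3, h4, fun hs => settled hb hΔ hs h1 h3⟩
  · refine ⟨fun l hl hns => ?_, fun N => Pool.Agent.V8H12.GT.exists_partner hb hΔ h0 N⟩
    obtain ⟨h1, h2, h3, hne⟩ := Pool.Agent.V8H12.GT.pair_class h0 hl hns
    have hp0 : Fact l₀.Prime := ⟨h0.1⟩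
    have hpl : Fact l.Prime := ⟨hl.1⟩
    have n1 : Pool.Agent.V8H12.X49.nonsq l₀ l = 1 := by
      unfold Pool.Agent.V8H12.X49.nonsq
      rw [if_neg hns]
    have h8 := h0.2.1
    have h9 := hl.2.1
    have n2 : Pool.Agent.V8H12.X49.nonsq l l₀ = 1 := by
      unfold Pool.Agent.V8H12.X49.nonsq
      rw [if_neg]
      intro h
      exact hns ((ZMod.exists_sq_eq_prime_iff_of_mod_four_eq_one (p := l₀) (q := l) (by omega)
        (by omega)).2 h)
    have h4 : corank a b (l₀ * l) = 0 := by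
      rw [corank_eq, Pool.Agent.V8H12.GT.cork_eq, h3, h2, Finset.sdiff_self]
      exact Pool.Agent.V8H12.GT.pair_cork hne hr n1 n2
    have h5 := s_of hb hΔ h1 (n := 0) h4
    rw [Nat.cast_zero, mul_zero, add_zero] at h5
    exact ⟨h1, h4, h5⟩

end Pool.Agent.Results.MP_e2b281_nt.GeneralTwists
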