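import Mathlib
import Pool.Agent.V8H34.PPC.Desc
import Pool.Agent.V8H34.PPC.Box

/-!
# Rank and 2-Selmer rank of `y² = x³ + a x² + ℓ x` with `ℓ` and `4 ℓ - a²` prime

The definitions `SelSet`, `f`, `rank`, `s`, `Q1` are those of the problem.

* If `ℓ ≡ 3 mod 4` and `4 ℓ - a²` are primes (`a` of either sign), then the two Selmer groups of
  `y² = x³ + a x² + ℓ x` have order two, the rank is zero and Q1 holds.
* For all but `x / (log x) ^ A` of the primes `ℓ ≤ x`, `ℓ ≡ 3 mod 4`, this applies to at least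
  `c (v - u) / (log x log log x)` of the `a` of every interval `(u, v]` with `v² < 4 ℓ` and
  `v - u ≥ √x / (log x) ^ A`.
* The box `|a| ≤ X`, `1 ≤ b ≤ X²` has at least `c X³ / ((log X)² log log X)` pairs `(a, b)` for which the
  rank is zero and Q1 holds.

Proof. First descent: the quartics are definite. Second descent: they have no points over `ℚ₂` for `-1`
and `4 ℓ - a²`. The number of the `a`: the theorem on sums of a prime and a square for almost all integers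
in `Pool.Agent.Results.MP_d48457_nt.EveryModulus`, with a lower bound for the singular series.
-/

set_option autoImplicit false

open WeierstrassCurve

namespace Pool.Agent.Results.MP_e2b281_nt.PrimePairCurves

/-- The rank of the curve `y² = x³ + a x² + b x` over `ℚ`. -/
noncomputable def rank (a b : ℤ) : ℕ := Module.finrank ℤ
  (({ a₁ := 0, a₂ := (a : ℚ), a₃ := 0, a₄ := (b : ℚ), a₆ := 0 } : WeierstrassCurve ℚ).toAffine.Point)

/-- The squarefree divisors `b₁` of `b` (one for every class) with an everywhere locally solvable quartic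
`N² = b₁ M⁴ + a M² e² + (b / b₁) e⁴`. -/
def SelSet (a b : ℤ) : Set ℤ := {b₁ : ℤ | Squarefree b₁ ∧ b₁ ∣ b ∧
  (∃ N M e : ℝ, (M ≠ 0 ∨ e ≠ 0) ∧
    N ^ 2 = (b₁ : ℝ) * M ^ 4 + (a : ℝ) * M ^ 2 * e ^ 2 + ((b / b₁ : ℤ) : ℝ) * e ^ 4) ∧
  ∀ (p : ℕ) [Fact p.Prime], ∃ N M e : Padic p, (M ≠ 0 ∨ e ≠ 0) ∧
    N ^ 2 = (b₁ : Padic p) * M ^ 4 + (a : Padic p) * M ^ 2 * e ^ 2 + ((b / b₁ : ℤ) : Padic p) * e ^ 4}

/-- The exponent: the order of the group is `2 ^ (f a b)`. -/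
noncomputable def f (a b : ℤ) : ℕ := Nat.log 2 (SelSet a b).ncard

/-- The 2-Selmer rank `f₁ + f₂ - 2` of `y² = x³ + a x² + b x`. -/
noncomputable def s (a b : ℤ) : ℤ := (f a b : ℤ) + (f (-2 * a) (a ^ 2 - 4 * b) : ℤ) - 2

/-- The assertion of Q1 for the curve `y² = x³ + a x² + b x`. -/
def Q1 (a b : ℤ) : Prop := (rank a b : ℤ) ≡ s a b [ZMOD 2]

/-- The curve `y² = x³ + a x² + b x` is nonsingular, it has `s = 0` and rank `0`, and Q1 holds for it. -/
def Settled (a b : ℤ) : Prop := b * (a ^ 2 - 4 * b) ≠ 0 ∧ s a b = 0 ∧ rank a b = 0 ∧ Q1 a b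

/-- `4 ℓ - a²` is a prime. -/
def Pair (l : ℕ) (a : ℤ) : Prop := ∃ q : ℕ, q.Prime ∧ 4 * (l : ℤ) = q + a ^ 2

section proof

open Pool.Agent.V8H12 Pool.Agent.V8H34.PPC

theorem core (l : ℕ) (a : ℤ) (hl : l.Prime) (hl4 : l % 4 = 3) (h : Pair l a) :
    SelSet a l = {1, (l : ℤ)} ∧ SelSet (-2 * a) (a ^ 2 - 4 * l) = {1, a ^ 2 - 4 * (l : ℤ)} ∧
      Settled a l := by
  have e1 : SelSet a l = {1, (l : ℤ)} := sel1 hl h
  have e2 : SelSet (-2 * a) (a ^ 2 - 4 * l) = {1, a ^ 2 - 4 * (l : ℤ)} := sel2 hl4 h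
  have hpos : a ^ 2 < 4 * (l : ℤ) := pos_of h
  have hl1 : (1 : ℤ) < l := by exact_mod_cast hl.one_lt
  have f1 : f a l = 1 := by
    unfold f
    rw [e1, log_pair (by omega)]
  have f2 : f (-2 * a) (a ^ 2 - 4 * l) = 1 := by
    unfold f
    rw [e2, log_pair (by linarith)]
  have hs : s a l = 0 := by
    unfold s
    rw [f1, f2]
    norm_num
  have hr : rank a l = 0 := by
    unfold rank
    have h' : Finite (({ a₁ := 0, a₂ := (a : ℚ), a₃ := 0, a₄ := ((l : ℤ) : ℚ), a₆ := 0 } :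
      WeierstrassCurve ℚ).toAffine.Point) := fin_pts hl hl4 h
    exact X49.rank_zero_of_finite
  refine ⟨e1, e2, ?_, hs, hr, ?_⟩
  · exact mul_ne_zero (by omega) (by linarith)
  · unfold Q1
    rw [hs, hr]
    rfl

theorem pair_of {l m : ℕ} (h : (4 * l - m ^ 2).Prime) : Pair l (m : ℤ) ∧ Pair l (-(m : ℤ)) := by
  have h1 : m ^ 2 < 4 * l := by
    have := h.pos
    omega
  have h2 : ((4 * l - m ^ 2 : ℕ) : ℤ) = 4 * l - m ^ 2 := by
    rw [Nat.cast_sub h1.le]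
    push_cast
    ring
  exact ⟨⟨_, h, by rw [h2]; ring⟩, ⟨_, h, by rw [h2]; ring⟩⟩

theorem settled_of {l m : ℕ} (hl : l.Prime) (hl4 : l % 4 = 3) (h : (4 * l - m ^ 2).Prime) :
    Settled (m : ℤ) l ∧ Settled (-(m : ℤ)) l :=
  ⟨(core l m hl hl4 (pair_of h).1).2.2, (core l (-(m : ℤ)) hl hl4 (pair_of h).2).2.2⟩

end proof

open Classical in
/-- **Rank and 2-Selmer rank of `y² = x³ + a x² + ℓ x` with `ℓ` and `4 ℓ - a²` prime.** -/
theorem result :
    (∀ (l : ℕ) (a : ℤ), l.Prime → l % 4 = 3 → Pair l a →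
      SelSet a l = {1, (l : ℤ)} ∧ SelSet (-2 * a) (a ^ 2 - 4 * l) = {1, a ^ 2 - 4 * (l : ℤ)} ∧
        Settled a l) ∧
    (∀ A : ℕ, ∃ c : ℝ, 0 < c ∧ ∃ x₀ : ℕ, ∀ x : ℕ, x₀ ≤ x →
      ∃ S : Finset ℕ, (S.card : ℝ) ≤ x / Real.log x ^ A ∧
        ∀ l : ℕ, l.Prime → l % 4 = 3 → l ≤ x → l ∉ S → ∀ u v : ℕ, v ^ 2 < 4 * l →
          Real.sqrt x / Real.log x ^ A ≤ v - u →
          c * (v - u) / (Real.log x * Real.log (Real.log x)) ≤
            (((Finset.Ioc u v).filter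
              (fun m : ℕ => (4 * l - m ^ 2).Prime ∧ Settled m l ∧ Settled (-m) l)).card : ℝ)) ∧
    ∃ c : ℝ, 0 < c ∧ ∃ X₀ : ℕ, ∀ X : ℕ, X₀ ≤ X →
      c * X ^ 3 / (Real.log X ^ 2 * Real.log (Real.log X)) ≤
        (((Finset.Icc (-(X : ℤ)) X ×ˢ Finset.Icc (1 : ℤ) (X ^ 2)).filter
          (fun p : ℤ × ℤ => Settled p.1 p.2)).card : ℝ) := by
  refine ⟨fun l a hl hl4 h => core l a hl hl4 h, fun A => ?_, ?_⟩
  · obtain ⟨c, hc, B, x₀, h⟩ := Pool.Agent.V8H34.PPC.count A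
    refine ⟨c, hc, max x₀ 16, fun x hx => ?_⟩
    obtain ⟨S, hS, h1⟩ := h x (le_trans (le_max_left _ _) hx)
    refine ⟨S, hS, fun l hl hl4 hlx hlS u v hv huv => ?_⟩
    have hx16 : 16 ≤ x := le_trans (le_max_right _ _) hx
    have hxr : (16 : ℝ) ≤ x := by exact_mod_cast hx16
    have hL : 0 < Real.log x := Real.log_pos (by linarith)
    have hlt : u < v := by
      have h2 : 0 < Real.sqrt x / Real.log x ^ A :=
        div_pos (Real.sqrt_pos.2 (by linarith)) (pow_pos hL A)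
      have h3 : (0 : ℝ) < v - u := lt_of_lt_of_le h2 huv
      have h4 : (u : ℝ) < v := by linarith
      exact_mod_cast h4
    refine (((h1 l hl.one_le hlx hlS).2 u v hlt hv).2 huv).trans ?_
    have h5 : ((Finset.Ioc u v).filter (fun m => (4 * l - m ^ 2).Prime)).card ≤
        ((Finset.Ioc u v).filter
          (fun m : ℕ => (4 * l - m ^ 2).Prime ∧ Settled m l ∧ Settled (-m) l)).card := by
      refine Finset.card_le_card fun m hm => ?_
      have h6 := Finset.mem_filter.1 hm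
      exact Finset.mem_filter.2 ⟨h6.1, h6.2, settled_of hl hl4 h6.2⟩
    exact_mod_cast h5
  · obtain ⟨c, hc, X₀, h⟩ := Pool.Agent.V8H34.PPC.box
    refine ⟨c, hc, X₀, fun X hX => ?_⟩
    obtain ⟨Q, hQ, hcard⟩ := h X hX
    refine hcard.trans ?_
    rw [← Finset.card_sigma]
    have h5 : (Q.sigma fun l => (Finset.Ioc 0 X).filter (fun m => (4 * l - m ^ 2).Prime)).card ≤
        ((Finset.Icc (-(X : ℤ)) X ×ˢ Finset.Icc (1 : ℤ) (X ^ 2)).filter
          (fun p : ℤ × ℤ => Settled p.1 p.2)).card := by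
      refine Finset.card_le_card_of_injOn (fun p => ((p.2 : ℤ), (p.1 : ℤ))) (fun p hp => ?_)
        (fun p _ q _ hpq => ?_)
      · have hp' := Finset.mem_sigma.1 (Finset.mem_coe.1 hp)
        obtain ⟨g1, g2, g3, g4⟩ := hQ p.1 hp'.1
        have g5 := Finset.mem_filter.1 hp'.2
        have g6 := (Finset.mem_Ioc.1 g5.1).2
        have k2 : (p.2 : ℤ) ≤ X := by exact_mod_cast g6
        have k3 : (1 : ℤ) ≤ p.1 := by exact_mod_cast g1
        have k4 : (p.1 : ℤ) ≤ (X : ℤ) ^ 2 := by exact_mod_cast g2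
        refine Finset.mem_coe.2 (Finset.mem_filter.2 ⟨Finset.mem_product.2
          ⟨Finset.mem_Icc.2 ⟨?_, k2⟩, Finset.mem_Icc.2 ⟨k3, k4⟩⟩, ?_⟩)
        · show -(X : ℤ) ≤ (p.2 : ℤ)
          omega
        · exact (settled_of g3 g4 g5.2).1
      · have h6 := Prod.mk.inj hpq
        have h7 : p.2 = q.2 := by exact_mod_cast h6.1
        have h8 : p.1 = q.1 := by exact_mod_cast h6.2
        exact Sigma.ext h8 (heq_of_eq h7)
    exact_mod_cast h5

end Pool.Agent.Results.MP_e2b281_nt.PrimePairCurves
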