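import Mathlib
import Pool.Agent.Results.MP_e2b281_nt.GeneralTwists
import Pool.Agent.V8H12.GT.Spl

/-!
# The 2-Selmer rank and the rank of the prime twists of a curve with a point of order two

`E : y² = x³ + a x² + b x` is arbitrary with `b` and `a² - 4 b` not squares, `E_D` is its quadratic twist by
`D`, and the class of the `D` and all other notions are those of
`Pool.Agent.Results.MP_e2b281_nt.GeneralTwists`; in particular `SelSet`, `f`, `rank`, `s`, `Q1` are those of
the problem. Let `m` be the number of the odd primes that divide `b (a² - 4 b)`.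

* The split primes have the natural density `1 / 2 ^ (m + 2)`. Exactly half of them, `1 / 2 ^ (m + 3)`,
  have `s(E_ℓ) = s(E)`, the other half has `s(E_ℓ) = s(E) + 2`. If `s(E) = 0`, then the primes `ℓ` of the first
  half have `rank E_ℓ = s(E_ℓ) = 0`: Q1 holds for a positive proportion of the prime twists of `E`.
* More generally, let `D` be any member of the class, with `w` prime factors and corank `k`. For every `r`, the
  split primes `ℓ` with `s(E_{D ℓ}) = s(E) + 2 r` have a natural density `d_r / 2 ^ (m + w + 3)` with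
  integers `d_r ≥ 0` of sum `2 ^ (w + 1)`, and `d_0`, `d_k`, `d_{k+1}` are positive. If `s(E) = 0`, Q1 holds
  for a positive proportion of the prime twists of every member `E_D` of the class, even when
  `s(E_D) > 0`.

Proof. The corank of the matrix for `D ℓ` depends only on the quadratic symbols of `ℓ` at the prime factors
of `D` and on the existence of a root of `y⁴ + a y² + b` modulo `ℓ`. These symbols are equidistributed:
Chebotarev's theorem (starting files) for the field generated by the square roots of `-1`, `2`, `b`, `a² - 4 b`,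
of the primes dividing `b (a² - 4 b) D` and by a root of `y⁴ + a y² + b`; the square of the Frobenius
element of an inert prime fixes all the square roots and moves the root. That `d_0 > 0`: with free
diagonal entries a matrix over `𝔽₂` can be made invertible, and after a change of the basis the matrix of
`D ℓ` has a fixed border and a free diagonal.
-/

set_option autoImplicit false

open Filter

namespace Pool.Agent.Results.MP_e2b281_nt.PrimeTwistLaw

open Pool.Agent.Results.MP_e2b281_nt.GeneralTwists (s Class IsSplit corank Settled core settled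
  ne_of_ns corank_eq class_eq)

/-- the number of the odd primes that divide `b (a² - 4 b)` -/
def numBad (a b : ℤ) : ℕ := ((b * (a ^ 2 - 4 * b)).natAbs.primeFactors.erase 2).card

/-- The primes with the property `G` have the natural density `δ` in the set of all primes. -/
def HasDensity (G : ℕ → Prop) (δ : ℝ) : Prop :=
  Tendsto (fun X : ℕ => ({l : ℕ | l ≤ X ∧ l.Prime ∧ G l}.ncard : ℝ) / (Nat.primeCounting X : ℝ))
    atTop (nhds δ)

/-- the split primes that do not divide `D` -/
def New (a b : ℤ) (D l : ℕ) : Prop := IsSplit a b l ∧ ¬ l ∣ D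

section proof

open Pool.Agent.V8H12

theorem congr_dens {G G' : ℕ → Prop} {δ : ℝ} (h : HasDensity G δ)
    (hG : ∀ l : ℕ, l.Prime → (G l ↔ G' l)) : HasDensity G' δ :=
  Pool.Agent.V8H64.X49.HasDensity.congr (G := G) (G' := G') h hG

theorem s_iff {a b : ℤ} (hb : b ≠ 0) (hΔ : a ^ 2 - 4 * b ≠ 0) {D l : ℕ} (hD : Class a b D)
    (h : New a b D l) (r : ℕ) : s (a * (D * l : ℕ)) (b * (D * l : ℕ) ^ 2) = s a b + 2 * r ↔
      GT.cork a b (D * l) = r := by
  have h1 : Class a b (D * l) := (GT.add_split (a := a) (b := b) hD h).1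
  have h2 := (core hb hΔ h1).2.2.2.2
  rw [corank_eq] at h2
  rw [h2]
  omega

theorem law {a b : ℤ} (hb : ¬ IsSquare b) (hΔ : ¬ IsSquare (a ^ 2 - 4 * b)) {D : ℕ}
    (hD : Class a b D) : ∃ d : ℕ → ℕ, 0 < d 0 ∧ 0 < d (corank a b D) ∧ 0 < d (corank a b D + 1) ∧
      ∑ r ∈ Finset.range (D.primeFactors.card + 2), d r = 2 ^ (D.primeFactors.card + 1) ∧
      (∀ r : ℕ, HasDensity (fun l => New a b D l ∧
          s (a * (D * l : ℕ)) (b * (D * l : ℕ) ^ 2) = s a b + 2 * r)
        ((d r : ℝ) / 2 ^ (numBad a b + D.primeFactors.card + 3))) ∧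
      (s a b = 0 → HasDensity (fun l => New a b D l ∧ Settled a b (D * l))
        ((d 0 : ℝ) / 2 ^ (numBad a b + D.primeFactors.card + 3))) ∧
      HasDensity (New a b D) (1 / 2 ^ (numBad a b + 2)) := by
  have hb0 := ne_of_ns hb
  have hΔ0 := ne_of_ns hΔ
  obtain ⟨δ, d, -, h0, h1, h2, h3, h4, h5⟩ := GT.law hb hΔ ((class_eq a b D).1 hD)
  have hD0 : 0 < D := Nat.pos_of_ne_zero hD.1.ne_zero
  have e1 := GT.dens_split hb0 hΔ0 hD0 h4
  have e2 : (GT.badS a b).card = numBad a b := rfl
  rw [e2] at e1
  have e3 : ∀ x : ℝ, x * δ = x / 2 ^ (numBad a b + D.primeFactors.card + 3) := by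
    intro x
    have hδ : δ = 1 / 2 ^ (numBad a b + D.primeFactors.card + 3) := by
      have h6 : (2 : ℝ) ^ (D.primeFactors.card + 1) ≠ 0 := by positivity
      have h7 : δ = (1 / 2 ^ (numBad a b + 2)) / 2 ^ (D.primeFactors.card + 1) := by
        rw [eq_div_iff h6, mul_comm]
        exact e1
      rw [h7, div_div, ← pow_add]
      congr 2
      ring
    rw [hδ]
    ring
  have hr : ∀ r : ℕ, HasDensity (fun l => New a b D l ∧
      s (a * (D * l : ℕ)) (b * (D * l : ℕ) ^ 2) = s a b + 2 * r)
        ((d r : ℝ) / 2 ^ (numBad a b + D.primeFactors.card + 3)) := by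
    intro r
    rw [← e3]
    exact congr_dens (h5 r) fun l _ => and_congr_right fun hl => (s_iff hb0 hΔ0 hD hl r).symm
  refine ⟨d, h0, h1, h2, h3, hr, fun hs => ?_, ?_⟩
  · refine congr_dens (hr 0) fun l _ => and_congr_right fun hl => ?_
    have g1 : Class a b (D * l) := (GT.add_split (a := a) (b := b) hD hl).1
    constructor
    · intro h
      exact settled hb hΔ hs g1 ((s_iff hb0 hΔ0 hD hl 0).1 h)
    · intro h
      rw [h.1, hs]
      rfl
  · rw [← e1]
    exact h4

end proof

/-- **The law of the 2-Selmer ranks of the prime twists.** -/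
theorem result :
    (∀ a b : ℤ, ¬ IsSquare b → ¬ IsSquare (a ^ 2 - 4 * b) →
      HasDensity (IsSplit a b) (1 / 2 ^ (numBad a b + 2)) ∧
      HasDensity (fun l => IsSplit a b l ∧ s (a * l) (b * l ^ 2) = s a b)
        (1 / 2 ^ (numBad a b + 3)) ∧
      HasDensity (fun l => IsSplit a b l ∧ s (a * l) (b * l ^ 2) = s a b + 2)
        (1 / 2 ^ (numBad a b + 3)) ∧
      (s a b = 0 → HasDensity (fun l => IsSplit a b l ∧ Settled a b l)
        (1 / 2 ^ (numBad a b + 3)))) ∧
    (∀ a b : ℤ, ¬ IsSquare b → ¬ IsSquare (a ^ 2 - 4 * b) → ∀ D : ℕ, Class a b D →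
      ∃ d : ℕ → ℕ, 0 < d 0 ∧ 0 < d (corank a b D) ∧ 0 < d (corank a b D + 1) ∧
        ∑ r ∈ Finset.range (D.primeFactors.card + 2), d r = 2 ^ (D.primeFactors.card + 1) ∧
        (∀ r : ℕ, HasDensity (fun l => New a b D l ∧
            s (a * (D * l : ℕ)) (b * (D * l : ℕ) ^ 2) = s a b + 2 * r)
          ((d r : ℝ) / 2 ^ (numBad a b + D.primeFactors.card + 3))) ∧
        (s a b = 0 → HasDensity (fun l => New a b D l ∧ Settled a b (D * l))
          ((d 0 : ℝ) / 2 ^ (numBad a b + D.primeFactors.card + 3)))) := by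
  refine ⟨fun a b hb hΔ => ?_, fun a b hb hΔ D hD => ?_⟩
  · have h1 : Class a b 1 := Pool.Agent.V8H12.GT.one_class a b
    obtain ⟨d, h2, -, h3, h4, h5, h6, h7⟩ := law hb hΔ h1
    have hk : corank a b 1 = 0 := by
      rw [corank_eq]
      exact Nat.le_zero.1 ((Pool.Agent.V8H12.GT.cork_le a b 1).trans (by simp))
    rw [hk, zero_add] at h3
    simp only [Nat.primeFactors_one, Finset.card_empty, zero_add, pow_one, add_zero] at h4 h5 h6
    rw [Finset.sum_range_succ, Finset.sum_range_one] at h4
    have d0 : d 0 = 1 := by omega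
    have d1 : d 1 = 1 := by omega
    have hN : ∀ l : ℕ, l.Prime → (New a b 1 l ↔ IsSplit a b l) := fun l hl =>
      ⟨fun h => h.1, fun h => ⟨h, fun h8 => hl.one_lt.ne' (Nat.dvd_one.1 h8)⟩⟩
    refine ⟨congr_dens h7 hN, ?_, ?_, fun hs => ?_⟩
    · have h8 := h5 0
      rw [d0, Nat.cast_one] at h8
      refine congr_dens h8 fun l hl => ?_
      rw [hN l hl]
      simp
    · have h8 := h5 1
      simp only [d1, Nat.cast_one, mul_one] at h8
      refine congr_dens h8 fun l hl => ?_
      rw [hN l hl]
      simp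
    · have h8 := h6 hs
      rw [d0, Nat.cast_one] at h8
      refine congr_dens h8 fun l hl => ?_
      rw [hN l hl, one_mul]
  · obtain ⟨d, h2, h3, h4, h5, h6, h7, -⟩ := law hb hΔ hD
    exact ⟨d, h2, h3, h4, h5, h6, h7⟩

end Pool.Agent.Results.MP_e2b281_nt.PrimeTwistLaw
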